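import Mathlib
import Pool.Agent.Y530.TB.Stm

/-!
# Four bodies, any two joined by a bundle
-/

set_option autoImplicit false

namespace Pool.Agent.Y465.TB

open Finset Module Pool.Agent.W824.BJ Pool.Agent.Y530.BB Pool.Agent.Y530.TB

theorem pr_swap {k : Type*} [CommRing k] (c d : Fin 6 → k) (X Y : Fin 4 → k) :
    pr (d - c) X Y = - pr (c - d) X Y := by
  simp only [pr, Pi.sub_apply]
  ring

/-- the differences of the screws of three bodies from the screw of a fourth body -/
def dif {B : Type} (b0 b1 b2 b3 : B) :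
    (B → Fin 6 → ℚ) →ₗ[ℚ] (Fin 3 → Fin 6 → ℚ) where
  toFun n := ![n b1 - n b0, n b2 - n b0, n b3 - n b0]
  map_add' n m := by
    funext i
    fin_cases i <;> simp <;> abel
  map_smul' a n := by
    funext i
    fin_cases i <;> simp [smul_sub]

theorem dif_surj {B : Type} {b0 b1 b2 b3 : B} (h01 : b0 ≠ b1) (h02 : b0 ≠ b2)
    (h03 : b0 ≠ b3) (h12 : b1 ≠ b2) (h23 : b2 ≠ b3) (h31 : b3 ≠ b1) :
    Function.Surjective (dif b0 b1 b2 b3) := by
  classical
  intro w
  refine ⟨fun b => if b = b1 then w 0 else if b = b2 then w 1 else if b = b3 then w 2 else 0, ?_⟩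
  funext i
  fin_cases i <;> simp [dif, h01, h02, h03, h12.symm, h23.symm, h31]

theorem t (h : S_NUM) : S_BASE := by
  classical
  obtain ⟨P, hP⟩ := h
  intro V B _ _ β χ b0 b1 b2 b3 F e01 e02 e03 e12 e23 e31 h01 h02 h03 h12 h23 h31
    B01 B02 B03 B12 B23 B31 s01 s02 s03 s12 s23 s31
  obtain ⟨f01, g01, cf01, cg01, bf01, bg01, rfl⟩ := B01
  obtain ⟨f02, g02, cf02, cg02, bf02, bg02, rfl⟩ := B02
  obtain ⟨f03, g03, cf03, cg03, bf03, bg03, rfl⟩ := B03
  obtain ⟨f12, g12, cf12, cg12, bf12, bg12, rfl⟩ := B12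
  obtain ⟨f23, g23, cf23, cg23, bf23, bg23, rfl⟩ := B23
  obtain ⟨f31, g31, cf31, cg31, bf31, bg31, rfl⟩ := B31
  let σ1 : Equiv.Perm (Fin 3) := Equiv.ofBijective _ (Finite.injective_iff_bijective.1 cg01)
  let σ2 : Equiv.Perm (Fin 3) := Equiv.ofBijective _ (Finite.injective_iff_bijective.1 cg02)
  let σ3 : Equiv.Perm (Fin 3) := Equiv.ofBijective _ (Finite.injective_iff_bijective.1 cg03)
  have e1 : ∀ k, σ1.symm (χ (g01 k)) = k := fun k => σ1.symm_apply_apply k
  have e2 : ∀ k, σ2.symm (χ (g02 k)) = k := fun k => σ2.symm_apply_apply k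
  have e3 : ∀ k, σ3.symm (χ (g03 k)) = k := fun k => σ3.symm_apply_apply k
  let z : V → Fin 4 → ℚ := fun v => if β v = b0 then P 0 (χ v) else
    if β v = b1 then P 1 (σ1.symm (χ v)) else if β v = b2 then P 2 (σ2.symm (χ v)) else
    if β v = b3 then P 3 (σ3.symm (χ v)) else 0
  have z0 : ∀ v, β v = b0 → z v = P 0 (χ v) := fun v hv => by simp only [z]; rw [if_pos hv]
  have z1 : ∀ v, β v = b1 → z v = P 1 (σ1.symm (χ v)) := fun v hv => by
    simp only [z]
    rw [if_neg (fun h => h01 (h.symm.trans hv)), if_pos hv]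
  have z2 : ∀ v, β v = b2 → z v = P 2 (σ2.symm (χ v)) := fun v hv => by
    simp only [z]
    rw [if_neg (fun h => h02 (h.symm.trans hv)), if_neg (fun h => h12 (h.symm.trans hv)),
      if_pos hv]
  have z3 : ∀ v, β v = b3 → z v = P 3 (σ3.symm (χ v)) := fun v hv => by
    simp only [z]
    rw [if_neg (fun h => h03 (h.symm.trans hv)), if_neg (fun h => h31 (hv.symm.trans h)),
      if_neg (fun h => h23 (h.symm.trans hv)), if_pos hv]
  have hle : BM β F z ≤ LinearMap.ker (dif b0 b1 b2 b3) := by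
    intro n hn
    rw [mem_bm] at hn
    have hF : ∀ {f g : Fin 3 → V}, br3 f g ⊆ F → ∀ k,
        pr (n (β (f k)) - n (β (g k))) (z (f k)) (z (g k)) = 0 := by
      intro f g hs k
      exact hn _ _ (hs (mem_br3.2 ⟨k, rfl⟩))
    let m : Fin 4 → Fin 6 → ℚ := ![0, n b1 - n b0, n b2 - n b0, n b3 - n b0]
    have hm : m = 0 := by
      refine hP (fun k => σ2.symm (χ (g12 (σ1 k)))) (fun k => σ3.symm (χ (g23 (σ2 k))))
        (fun k => σ1.symm (χ (g31 (σ3 k)))) ?_ ?_ ?_ m rfl ?_ ?_ ?_ ?_ ?_ ?_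
      · exact fun k l hkl => σ1.injective (cg12 (σ2.symm.injective hkl))
      · exact fun k l hkl => σ2.injective (cg23 (σ3.symm.injective hkl))
      · exact fun k l hkl => σ3.injective (cg31 (σ1.symm.injective hkl))
      · intro k
        have h1 := hF s01 k
        rw [z0 _ (bf01 k), z1 _ (bg01 k), cf01, e1, bf01, bg01] at h1
        change pr (n b1 - n b0) _ _ = 0
        rw [pr_swap, h1, neg_zero]
      · intro k
        have h1 := hF s02 k
        rw [z0 _ (bf02 k), z2 _ (bg02 k), cf02, e2, bf02, bg02] at h1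
        change pr (n b2 - n b0) _ _ = 0
        rw [pr_swap, h1, neg_zero]
      · intro k
        have h1 := hF s03 k
        rw [z0 _ (bf03 k), z3 _ (bg03 k), cf03, e3, bf03, bg03] at h1
        change pr (n b3 - n b0) _ _ = 0
        rw [pr_swap, h1, neg_zero]
      · intro k
        have h1 := hF s12 (σ1 k)
        rw [z1 _ (bf12 _), z2 _ (bg12 _), cf12, Equiv.symm_apply_apply, bf12, bg12] at h1
        change pr ((n b1 - n b0) - (n b2 - n b0)) _ _ = 0
        rw [sub_sub_sub_cancel_right, h1]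
      · intro k
        have h1 := hF s23 (σ2 k)
        rw [z2 _ (bf23 _), z3 _ (bg23 _), cf23, Equiv.symm_apply_apply, bf23, bg23] at h1
        change pr ((n b2 - n b0) - (n b3 - n b0)) _ _ = 0
        rw [sub_sub_sub_cancel_right, h1]
      · intro k
        have h1 := hF s31 (σ3 k)
        rw [z3 _ (bf31 _), z1 _ (bg31 _), cf31, Equiv.symm_apply_apply, bf31, bg31] at h1
        change pr ((n b3 - n b0) - (n b1 - n b0)) _ _ = 0
        rw [sub_sub_sub_cancel_right, h1]
    rw [LinearMap.mem_ker]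
    funext i
    fin_cases i
    · exact congrFun hm 1
    · exact congrFun hm 2
    · exact congrFun hm 3
  have h1 := gb_le β F z
  have h2 := Submodule.finrank_mono hle
  have h3 := LinearMap.finrank_range_add_finrank_ker (dif b0 b1 b2 b3)
  rw [LinearMap.range_eq_top.2 (dif_surj h01 h02 h03 h12 h23 h31), finrank_top] at h3
  have hf : ∀ (ι : Type) [Fintype ι], finrank ℚ (ι → Fin 6 → ℚ) = 6 * Fintype.card ι := by
    intro ι _
    rw [Module.finrank_pi_fintype]
    simp [mul_comm]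
  have h4 : finrank ℚ (Fin 3 → Fin 6 → ℚ) = 18 := by
    rw [hf (Fin 3)]
    simp
  have h5 := hf B
  omega

end Pool.Agent.Y465.TB
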